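import Pool.Agent.RL114.AssemblyR
import Pool.Agent.RL114.TaskCount
import Pool.Agent.RL114.TaskRound
import Pool.Agent.RL114.TaskQ
import Pool.Agent.RL114.TaskGrowR
import Pool.Agent.RL114.TaskDetR
import Pool.Agent.RL114.TaskBoxR
import Pool.Agent.RL114.TaskP0R
import Pool.Agent.RL114.TaskP1R
import Pool.Agent.RL114.TaskP2R
import Pool.Agent.RL114.TaskSumR
import Pool.Agent.RL114.TaskTimeR

set_option autoImplicit false

/-!
# MP_383407_pr: the logarithm is not needed in symmetric line growth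

For every threshold `r ≥ 3` and every radius `ρ ≥ r` there is a sequence `t(p)` of smaller order
than `p^{-(r-1)} log (1/p)` such that the limsup of `ℙ(T ≤ t(p))` as `p → 0` is `1`.
-/

open scoped ENNReal
open MeasureTheory Filter Topology

namespace Pool.Agent.Results.MP_383407_pr.NoLogarithm

open Pool.Agent.RL114

/-- The negated form of the question, for every threshold `r ≥ 3` and every radius `ρ ≥ r`. -/
theorem result :
    ∀ r ρ : ℕ, 3 ≤ r → r ≤ ρ → ∃ t : ℝ → ℝ,
      Tendsto (fun p : ℝ => t p / (p⁻¹ ^ (r - 1) * Real.log (1 / p))) (𝓝[>] 0) (𝓝 0) ∧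
      limsup (fun p : ℝ => Pr (ℤ × ℤ) p {ω | ∃ n : ℕ, (n : ℝ) ≤ t p ∧ (0, 0) ∈ xi ρ r ω n})
        (𝓝[>] 0) = 1 := by
  have hDet : TaskDetR := Pool.Agent.RL114.TaskDetR.main Pool.Agent.RL114.TaskGrowR.main
  have hCount : TaskCount := Pool.Agent.RL114.TaskCount.main
  have hRound : TaskRound := Pool.Agent.RL114.TaskRound.main hCount
  have hQ : TaskQ := Pool.Agent.RL114.TaskQ.main
  have hBox : TaskBoxR := Pool.Agent.RL114.TaskBoxR.main
  have h0 : TaskP0R := Pool.Agent.RL114.TaskP0R.main hCount hQ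
  have h1 : TaskP1R := Pool.Agent.RL114.TaskP1R.main hRound hQ hBox
  have h2 : TaskP2R := Pool.Agent.RL114.TaskP2R.main hRound hQ hBox
  have hSum : TaskSumR := Pool.Agent.RL114.TaskSumR.main h0 h1 h2
  exact Pool.Agent.RL114.AssemblyR.final hDet hSum Pool.Agent.RL114.TaskTimeR.main

end Pool.Agent.Results.MP_383407_pr.NoLogarithm
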